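import Mathlib

/-!
# MP_f2d551_nt : small nontrivial `μ`-Sondow numbers

Every integer `μ ∉ {0, 1, -1, 2, -2, 4, 16}` has a `μ`-Sondow number in `[2, |μ|]`, except possibly
`μ = 2 ^ 2 ^ k` where `k ≥ 62`, the Fermat number `2 ^ 2 ^ k + 1` is prime (no such `k` is known)
and `k` lies in none of the residue classes listed in `classes`.
-/

namespace Pool.Agent.Results.MP_f2d551_nt.AllButHypotheticalFermat

/-- `n` is a `μ`-Sondow number: `p ^ s ∣ n / p + μ` whenever `p` is a prime divisor of `n` and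
`p ^ s` exactly divides `n`. -/
def IsSondow (μ : ℤ) (n : ℕ) : Prop :=
  0 < n ∧ ∀ p s : ℕ, p.Prime → p ∣ n → p ^ s ∣ n → ¬ p ^ (s + 1) ∣ n →
    ((p ^ s : ℕ) : ℤ) ∣ ((n / p : ℕ) : ℤ) + μ

/-- Residue classes `(L, c)`: those `k` with `k % L = c`. -/
def classes : List (ℕ × ℕ) :=
  [(3, 0), (10, 3), (12, 4), (20, 4), (24, 5), (24, 10), (36, 1), (36, 14), (42, 5), (58, 34),
   (60, 23), (60, 29), (60, 34), (60, 40), (60, 43), (80, 48), (84, 8), (84, 37), (84, 52),
   (90, 40), (92, 10), (92, 28), (102, 28), (108, 65), (108, 89), (120, 1)]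

/-! ### Repeated squaring -/

/-- `sq n k = 2 ^ 2 ^ k % n`, computed by repeated squaring. -/
def sq (n : ℕ) : ℕ → ℕ
  | 0 => 2 % n
  | k + 1 => sq n k * sq n k % n

theorem sq_eq (n k : ℕ) : sq n k = 2 ^ 2 ^ k % n := by
  induction k with
  | zero => simp [sq]
  | succ k ih =>
    rw [sq, ih, ← Nat.mul_mod, ← pow_add, pow_succ 2 k]
    congr 2
    ring

theorem sq_add (n a b m : ℕ) (h : sq n a = sq n b) : sq n (a + m) = sq n (b + m) := by
  induction m with
  | zero => simpa using h
  | succ m ih => rw [← add_assoc, ← add_assoc, sq, sq, ih]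

theorem sq_period (n k₀ L : ℕ) (h : sq n (k₀ + L) = sq n k₀) (j : ℕ) :
    sq n (k₀ + L * j) = sq n k₀ := by
  induction j with
  | zero => simp
  | succ j ih =>
    have : k₀ + L * (j + 1) = (k₀ + L) + L * j := by ring
    rw [this, sq_add n (k₀ + L) k₀ (L * j) h, ih]

/-- The data that certifies one residue class. -/
def good (L k₀ : ℕ) (l : List ℕ) : Prop :=
  sq l.prod (k₀ + L) = sq l.prod k₀ ∧ l.prod ≤ 2 ^ 32 ∧ 2 ≤ l.prod ∧ k₀ < L + 5 ∧ 5 ≤ k₀ ∧
    ∀ p ∈ l, ¬ p ^ 2 ∣ l.prod ∧ (l.prod / p + sq l.prod k₀) % p = 0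

instance (L k₀ : ℕ) (l : List ℕ) : Decidable (good L k₀ l) := by
  unfold good; infer_instance

theorem isSondow_of_list (l : List ℕ) (hp : ∀ p ∈ l, p.Prime) (M : ℕ) (h0 : 0 < l.prod)
    (h : ∀ p ∈ l, ¬ p ^ 2 ∣ l.prod ∧ (l.prod / p + M % l.prod) % p = 0) :
    IsSondow (M : ℤ) l.prod := by
  refine ⟨h0, ?_⟩
  intro p s hpp hpn hps hps'
  have hpl : p ∈ l := by
    obtain ⟨q, hq, hpq⟩ := (Prime.dvd_prod_iff hpp.prime).1 hpn
    rwa [(Nat.prime_dvd_prime_iff_eq hpp (hp q hq)).1 hpq]
  obtain ⟨h1, h2⟩ := h p hpl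
  have hs : s ≤ 1 := by
    by_contra hs
    exact h1 ((pow_dvd_pow p (by omega)).trans hps)
  have hs1 : p ^ s ∣ p := by
    simpa using pow_dvd_pow p hs
  have hd : p ∣ l.prod / p + M := by
    have h3 : p ∣ l.prod / p + M % l.prod := Nat.dvd_of_mod_eq_zero h2
    have h4 : l.prod / p + M = (l.prod / p + M % l.prod) + l.prod * (M / l.prod) := by
      have := Nat.mod_add_div M l.prod
      omega
    rw [h4]
    exact dvd_add h3 (hpn.mul_right _)
  have := hs1.trans hd
  exact_mod_cast this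

theorem class_case (L k₀ : ℕ) (l : List ℕ) (hp : ∀ p ∈ l, p.Prime) (hg : good L k₀ l)
    (k : ℕ) (hk : 5 ≤ k) (hc : k % L = k₀ % L) :
    ∃ n : ℕ, 2 ≤ n ∧ n ≤ 2 ^ 2 ^ k ∧ IsSondow ((2 ^ 2 ^ k : ℕ) : ℤ) n := by
  obtain ⟨h1, h2, h3, h4, h5, h6⟩ := hg
  have hge : k₀ ≤ k := by
    by_contra hlt
    push Not at hlt
    have hLpos : 0 < L := by omega
    have : (k₀ - k) % L = 0 := by
      have : k ≡ k₀ [MOD L] := hc
      exact Nat.mod_eq_zero_of_dvd ((Nat.modEq_iff_dvd' hlt.le).1 this)
    have h7 : k₀ - k < L := by omega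
    rw [Nat.mod_eq_of_lt h7] at this
    omega
  obtain ⟨j, hj⟩ : ∃ j, k = k₀ + L * j := by
    have : k₀ ≡ k [MOD L] := hc.symm
    obtain ⟨j, hj⟩ := (Nat.modEq_iff_dvd' hge).1 this
    exact ⟨j, by omega⟩
  refine ⟨l.prod, h3, ?_, ?_⟩
  · calc l.prod ≤ 2 ^ 32 := h2
      _ = 2 ^ 2 ^ 5 := by norm_num
      _ ≤ 2 ^ 2 ^ k := Nat.pow_le_pow_right (by norm_num) (Nat.pow_le_pow_right (by norm_num) hk)
  · apply isSondow_of_list l hp _ (by omega)
    intro p hpl
    refine ⟨(h6 p hpl).1, ?_⟩
    rw [← sq_eq, hj, sq_period _ _ _ h1 j]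
    exact (h6 p hpl).2

theorem cover (k : ℕ) (hk : 5 ≤ k) (hc : ∃ c ∈ classes, k % c.1 = c.2) :
    ∃ n : ℕ, 2 ≤ n ∧ n ≤ 2 ^ 2 ^ k ∧ IsSondow ((2 ^ 2 ^ k : ℕ) : ℤ) n := by
  obtain ⟨c, hc1, hc2⟩ := hc
  simp only [classes, List.mem_cons, List.not_mem_nil, or_false] at hc1
  rcases hc1 with h | h | h | h | h | h | h | h | h | h | h | h | h | h | h | h | h | h | h | h |
    h | h | h | h | h | h
  all_goals subst h; simp only at hc2
  · exact class_case 3 6 [5, 29] (by simp; norm_num) (by decide +kernel) k hk (by omega)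
  · exact class_case 10 13 [97, 353] (by simp; norm_num) (by decide +kernel) k hk (by omega)
  · exact class_case 12 16 [3, 11, 19] (by simp; norm_num) (by decide +kernel) k hk (by omega)
  · exact class_case 20 24 [13, 101] (by simp; norm_num) (by decide +kernel) k hk (by omega)
  · exact class_case 24 5 [3, 11, 73, 103] (by simp; norm_num) (by decide +kernel) k hk (by omega)
  · exact class_case 24 10 [3, 5, 11, 19, 137] (by simp; norm_num) (by decide +kernel) k hk
      (by omega)
  · exact class_case 36 37 [5, 7, 19, 223] (by simp; norm_num) (by decide +kernel) k hk (by omega)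
  · exact class_case 36 14 [5, 99409] (by simp; norm_num) (by decide +kernel) k hk (by omega)
  · exact class_case 42 5 [5, 197, 337] (by simp; norm_num) (by decide +kernel) k hk (by omega)
  · exact class_case 58 34 [5, 709] (by simp; norm_num) (by decide +kernel) k hk (by omega)
  · exact class_case 60 23 [3, 67, 71] (by simp; norm_num) (by decide +kernel) k hk (by omega)
  · exact class_case 60 29 [7, 11, 23, 199] (by simp; norm_num) (by decide +kernel) k hk (by omega)
  · exact class_case 60 34 [53, 5953] (by simp; norm_num) (by decide +kernel) k hk (by omega)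
  · exact class_case 60 40 [3, 7, 79, 46811] (by simp; norm_num) (by decide +kernel) k hk (by omega)
  · exact class_case 60 43 [5, 29, 401] (by simp; norm_num) (by decide +kernel) k hk (by omega)
  · exact class_case 80 48 [661, 17477] (by simp; norm_num) (by decide +kernel) k hk (by omega)
  · exact class_case 84 8 [17, 2549] (by simp; norm_num) (by decide +kernel) k hk (by omega)
  · exact class_case 84 37 [3, 17, 59, 131] (by simp; norm_num) (by decide +kernel) k hk (by omega)
  · exact class_case 84 52 [3, 491, 883] (by simp; norm_num) (by decide +kernel) k hk (by omega)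
  · exact class_case 90 40 [17, 46817] (by simp; norm_num) (by decide +kernel) k hk (by omega)
  · exact class_case 92 10 [3, 7, 2027] (by simp; norm_num) (by decide +kernel) k hk (by omega)
  · exact class_case 92 28 [3, 11, 283] (by simp; norm_num) (by decide +kernel) k hk (by omega)
  · exact class_case 102 28 [5, 1229] (by simp; norm_num) (by decide +kernel) k hk (by omega)
  · exact class_case 108 65 [3, 5, 31, 163] (by simp; norm_num) (by decide +kernel) k hk (by omega)
  · exact class_case 108 89 [13, 45361] (by simp; norm_num) (by decide +kernel) k hk (by omega)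
  · exact class_case 120 121 [613, 617] (by simp; norm_num) (by decide +kernel) k hk (by omega)

theorem single_case (k : ℕ) (l : List ℕ) (hp : ∀ p ∈ l, p.Prime) (hk : 5 ≤ k)
    (h2 : l.prod ≤ 2 ^ 32 ∧ 2 ≤ l.prod)
    (h : ∀ p ∈ l, ¬ p ^ 2 ∣ l.prod ∧ (l.prod / p + sq l.prod k) % p = 0) :
    ∃ n : ℕ, 2 ≤ n ∧ n ≤ 2 ^ 2 ^ k ∧ IsSondow ((2 ^ 2 ^ k : ℕ) : ℤ) n := by
  refine ⟨l.prod, h2.2, ?_, ?_⟩
  · calc l.prod ≤ 2 ^ 32 := h2.1
      _ = 2 ^ 2 ^ 5 := by norm_num
      _ ≤ 2 ^ 2 ^ k := Nat.pow_le_pow_right (by norm_num) (Nat.pow_le_pow_right (by norm_num) hk)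
  · apply isSondow_of_list l hp _ (by omega)
    intro p hpl
    rw [← sq_eq]
    exact h p hpl

theorem not_prime_of_sq (k p : ℕ) (hk : 6 ≤ k) (hp : 2 ≤ p) (hp' : p ≤ 2 ^ 64)
    (h : sq p k = p - 1) : ¬ (2 ^ 2 ^ k + 1 : ℕ).Prime := by
  intro hpr
  have h1 : p ∣ 2 ^ 2 ^ k + 1 := by
    rw [sq_eq] at h
    apply Nat.dvd_of_mod_eq_zero
    rw [Nat.add_mod, h, Nat.mod_eq_of_lt (show 1 < p by omega)]
    have : p - 1 + 1 = p := by omega
    rw [this, Nat.mod_self]
  have h2 : 2 ^ 64 ≤ 2 ^ 2 ^ k := by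
    calc 2 ^ 64 = 2 ^ 2 ^ 6 := by norm_num
      _ ≤ 2 ^ 2 ^ k := Nat.pow_le_pow_right (by norm_num) (Nat.pow_le_pow_right (by norm_num) hk)
  rcases (Nat.dvd_prime hpr).1 h1 with h3 | h3
  · omega
  · have : p < 2 ^ 2 ^ k + 1 := Nat.lt_succ_of_le (hp'.trans h2)
    exact absurd h3 (Nat.ne_of_lt this)

theorem small (k : ℕ) (hk : 5 ≤ k) (hk' : k < 62) (hpr : (2 ^ 2 ^ k + 1 : ℕ).Prime)
    (hc : ¬ ∃ c ∈ classes, k % c.1 = c.2) :
    ∃ n : ℕ, 2 ≤ n ∧ n ≤ 2 ^ 2 ^ k ∧ IsSondow ((2 ^ 2 ^ k : ℕ) : ℤ) n := by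
  have hmem : k ∈ [7, 11, 17, 19, 20, 22, 25, 26, 31, 32, 35, 38, 41, 46, 49, 55, 56, 59, 61] := by
    revert hc
    have hall : ∀ j ∈ Finset.Ico 5 62, (¬ ∃ c ∈ classes, j % c.1 = c.2) →
        j ∈ [7, 11, 17, 19, 20, 22, 25, 26, 31, 32, 35, 38, 41, 46, 49, 55, 56, 59, 61] := by
      decide +kernel
    exact hall k (Finset.mem_Ico.2 ⟨hk, hk'⟩)
  simp only [List.mem_cons, List.not_mem_nil, or_false] at hmem
  rcases hmem with h | h | h | h | h | h | h | h | h | h | h | h | h | h | h | h | h | h | h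
  all_goals subst h
  · exact single_case 7 [3, 31, 18959] (by simp; norm_num) (by norm_num) (by decide +kernel)
      (by decide +kernel)
  · exact absurd hpr (not_prime_of_sq 11 319489 (by norm_num) (by norm_num) (by norm_num)
      (by decide +kernel))
  · exact single_case 17 [349, 613] (by simp; norm_num) (by norm_num) (by decide +kernel)
      (by decide +kernel)
  · exact single_case 19 [3, 79, 1187] (by simp; norm_num) (by norm_num) (by decide +kernel)
      (by decide +kernel)
  · exact single_case 20 [3, 7, 13, 479] (by simp; norm_num) (by norm_num) (by decide +kernel)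
      (by decide +kernel)
  · exact single_case 22 [5, 6869] (by simp; norm_num) (by norm_num) (by decide +kernel)
      (by decide +kernel)
  · exact absurd hpr (not_prime_of_sq 25 25991531462657 (by norm_num) (by norm_num) (by norm_num)
      (by decide +kernel))
  · exact single_case 26 [7, 79, 167] (by simp; norm_num) (by norm_num) (by decide +kernel)
      (by decide +kernel)
  · exact single_case 31 [3, 7, 71387] (by simp; norm_num) (by norm_num) (by decide +kernel)
      (by decide +kernel)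
  · exact absurd hpr (not_prime_of_sq 32 25409026523137 (by norm_num) (by norm_num) (by norm_num)
      (by decide +kernel))
  · exact single_case 35 [3, 227, 859] (by simp; norm_num) (by norm_num) (by decide +kernel)
      (by decide +kernel)
  · exact single_case 38 [13, 2909] (by simp; norm_num) (by norm_num) (by decide +kernel)
      (by decide +kernel)
  · exact single_case 41 [2269, 6421] (by simp; norm_num) (by norm_num) (by decide +kernel)
      (by decide +kernel)
  · exact single_case 46 [5, 60589] (by simp; norm_num) (by norm_num) (by decide +kernel)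
      (by decide +kernel)
  · exact single_case 49 [53, 815197] (by simp; norm_num) (by norm_num) (by decide +kernel)
      (by decide +kernel)
  · exact single_case 55 [3, 11, 320539] (by simp; norm_num) (by norm_num) (by decide +kernel)
      (by decide +kernel)
  · exact single_case 56 [31, 47, 2879] (by simp; norm_num) (by norm_num) (by decide +kernel)
      (by decide +kernel)
  · exact single_case 59 [5, 47309] (by simp; norm_num) (by norm_num) (by decide +kernel)
      (by decide +kernel)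
  · exact single_case 61 [337, 9769] (by simp; norm_num) (by norm_num) (by decide +kernel)
      (by decide +kernel)

theorem isSondow_prime (μ : ℤ) (p : ℕ) (hp : p.Prime) (h : (p : ℤ) ∣ μ + 1) : IsSondow μ p := by
  refine ⟨hp.pos, ?_⟩
  intro q s hq hqp hs hs'
  have hqe : q = p := (Nat.prime_dvd_prime_iff_eq hq hp).1 hqp
  subst hqe
  have hs1 : s ≤ 1 := by
    by_contra hs1
    have h2 : q ^ 2 ∣ q := (pow_dvd_pow q (by omega)).trans hs
    have := Nat.le_of_dvd hq.pos h2
    nlinarith [hq.two_le]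
  have h3 : (q ^ s : ℕ) ∣ q := by simpa using pow_dvd_pow q hs1
  have h4 : ((q ^ s : ℕ) : ℤ) ∣ μ + 1 := (by exact_mod_cast h3 : ((q ^ s : ℕ) : ℤ) ∣ (q : ℤ)).trans h
  rw [Nat.div_self hq.pos]
  rw [add_comm]
  exact_mod_cast h4

theorem isSondow_two_pow (v m : ℕ) (hm : Odd m) :
    IsSondow ((2 ^ v * m : ℕ) : ℤ) (2 ^ (v + 1)) := by
  refine ⟨by positivity, ?_⟩
  intro q s hq hqp hs hs'
  have hqe : q = 2 := (Nat.prime_dvd_prime_iff_eq hq Nat.prime_two).1 (hq.dvd_of_dvd_pow hqp)
  subst hqe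
  have h1 : s ≤ v + 1 := (Nat.pow_dvd_pow_iff_le_right (by norm_num)).1 hs
  have h2 : ¬ s + 1 ≤ v + 1 := fun h => hs' ((Nat.pow_dvd_pow_iff_le_right (by norm_num)).2 h)
  have h3 : s = v + 1 := by omega
  subst h3
  have h4 : 2 ^ (v + 1) / 2 = 2 ^ v := by
    rw [pow_succ, Nat.mul_div_cancel _ (by norm_num)]
  rw [h4]
  obtain ⟨a, rfl⟩ := hm
  have : (2 ^ (v + 1) : ℕ) ∣ 2 ^ v + 2 ^ v * (2 * a + 1) := ⟨a + 1, by ring⟩
  exact_mod_cast this

theorem main (μ : ℤ) (hμ : μ ∉ ({0, 1, -1, 2, -2, 4, 16} : Set ℤ))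
    (hexc : ¬ ∃ k : ℕ, 62 ≤ k ∧ μ = 2 ^ 2 ^ k ∧ (2 ^ 2 ^ k + 1 : ℕ).Prime ∧
      ¬ ∃ c ∈ classes, k % c.1 = c.2) :
    ∃ n : ℕ, 2 ≤ n ∧ (n : ℤ) ≤ |μ| ∧ IsSondow μ n := by
  simp only [Set.mem_insert_iff, Set.mem_singleton_iff, not_or] at hμ
  obtain ⟨h0, h1, hm1, h2, hm2, h4, h16⟩ := hμ
  rcases lt_or_ge μ 0 with hneg | hpos
  · -- negative case
    have hle : μ ≤ -3 := by omega
    set a : ℕ := (μ + 1).natAbs with ha
    have ha2 : 2 ≤ a := by omega
    refine ⟨a.minFac, (Nat.minFac_prime (by omega)).two_le, ?_, ?_⟩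
    · have := Nat.minFac_le (n := a) (by omega)
      rw [abs_of_neg hneg]
      omega
    · apply isSondow_prime _ _ (Nat.minFac_prime (by omega))
      have h5 : a.minFac ∣ a := Nat.minFac_dvd a
      exact Int.natCast_dvd.2 h5
  · obtain ⟨m, rfl⟩ := Int.eq_ofNat_of_zero_le hpos
    have hm : 3 ≤ m := by omega
    rw [abs_of_nonneg hpos]
    by_cases hprime : (m + 1).Prime
    · -- `m` is even
      have heven : Even m := by
        rcases Nat.even_or_odd m with h | h
        · exact h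
        · exfalso
          have h3 : Even (m + 1) := h.add_one
          have := (hprime.even_iff).1 h3
          omega
      obtain ⟨v, a, hao, hva⟩ := Nat.exists_eq_two_pow_mul_odd (n := m) (by omega)
      by_cases ha1 : a = 1
      · subst ha1
        rw [mul_one] at hva
        have hv0 : v ≠ 0 := by
          rintro rfl
          simp at hva
          omega
        obtain ⟨k, hk⟩ := Nat.pow_of_pow_add_prime (a := 2) (n := v) (by norm_num) hv0
          (hva ▸ hprime)
        subst hk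
        have hk3 : 3 ≤ k := by
          by_contra hlt
          push Not at hlt
          interval_cases k <;> simp at hva <;> omega
        rcases Nat.lt_or_ge k 5 with hk5 | hk5
        · interval_cases k
          · refine ⟨145, by norm_num, by rw [hva]; norm_num, ?_⟩
            rw [hva]
            exact isSondow_of_list [5, 29] (by simp; norm_num) _ (by norm_num) (by decide +kernel)
          · refine ⟨627, by norm_num, by rw [hva]; norm_num, ?_⟩
            rw [hva]
            exact isSondow_of_list [3, 11, 19] (by simp; norm_num) _ (by norm_num)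
              (by decide +kernel)
        · have hex : ∃ n : ℕ, 2 ≤ n ∧ n ≤ 2 ^ 2 ^ k ∧ IsSondow ((2 ^ 2 ^ k : ℕ) : ℤ) n := by
            by_cases hcov : ∃ c ∈ classes, k % c.1 = c.2
            · exact cover k hk5 hcov
            · rcases Nat.lt_or_ge k 62 with hlt | hge
              · exact small k hk5 hlt (by rw [← hva]; exact hprime) hcov
              · exfalso
                apply hexc
                refine ⟨k, hge, ?_, ?_, hcov⟩
                · rw [hva]; push_cast; rfl
                · rw [← hva]; exact hprime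
          obtain ⟨n, hn2, hnle, hn⟩ := hex
          refine ⟨n, hn2, ?_, ?_⟩
          · rw [hva]; exact_mod_cast hnle
          · rw [hva]; exact hn
      · have ha3 : 3 ≤ a := by
          obtain ⟨b, rfl⟩ := hao
          omega
        refine ⟨2 ^ (v + 1), ?_, ?_, ?_⟩
        · calc 2 = 2 ^ 1 := by norm_num
            _ ≤ 2 ^ (v + 1) := Nat.pow_le_pow_right (by norm_num) (by omega)
        · have h6 : 2 ^ (v + 1) ≤ m := by
            rw [hva, pow_succ]
            exact Nat.mul_le_mul_left _ (by omega)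
          exact_mod_cast h6
        · rw [hva]
          exact isSondow_two_pow v a hao
    · have hlt : (m + 1).minFac < m + 1 := (Nat.not_prime_iff_minFac_lt (by omega)).1 hprime
      have hp := Nat.minFac_prime (n := m + 1) (by omega)
      refine ⟨(m + 1).minFac, hp.two_le, by exact_mod_cast Nat.lt_succ_iff.1 hlt, ?_⟩
      apply isSondow_prime _ _ hp
      exact_mod_cast Nat.minFac_dvd (m + 1)

/-- **Main theorem.** Q1 holds for every `μ`, except possibly for `μ = 2 ^ 2 ^ k` where `k ≥ 62`,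
`2 ^ 2 ^ k + 1` is a Fermat prime and `k` is in none of the listed residue classes. -/
theorem result (μ : ℤ) (hμ : μ ∉ ({0, 1, -1, 2, -2, 4, 16} : Set ℤ)) :
    (∃ n : ℕ, 2 ≤ n ∧ (n : ℤ) ≤ |μ| ∧ IsSondow μ n) ∨
      ∃ k : ℕ, 62 ≤ k ∧ μ = 2 ^ 2 ^ k ∧ (2 ^ 2 ^ k + 1 : ℕ).Prime ∧
        ¬ ∃ c ∈ classes, k % c.1 = c.2 := by
  by_cases hexc : ∃ k : ℕ, 62 ≤ k ∧ μ = 2 ^ 2 ^ k ∧ (2 ^ 2 ^ k + 1 : ℕ).Prime ∧
      ¬ ∃ c ∈ classes, k % c.1 = c.2
  · exact Or.inr hexc
  · exact Or.inl (main μ hμ hexc)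

end Pool.Agent.Results.MP_f2d551_nt.AllButHypotheticalFermat
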